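import Mathlib
import Pool.Agent.Results.MP_cc6734_lc.OmegaThree

set_option autoImplicit false

/-!
# The unbalanced relation `q⁺ → (p⁺ + ξ, p⁺ + η)²`

`star` gives a point `y` such that the tree of `step4` can be built inside the set of the points
below `y` joined to `y` in colour `1`. Such a tree has nodes at all levels below `p⁺`, not only at
the finite ones.
-/

open Set Cardinal Ordinal Function

namespace Pool.Agent.Y582.OP

open Pool.Agent.Results.MP_cc6734_lc.OmegaThree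

variable {L : Type} [LinearOrder L] {p q : Cardinal.{0}}

theorem star (C : Ctx L p q) {c : L → L → Fin 2} (hS : Stat (Deep L p))
    (h1 : ∀ W : Set L, Stat W → W ⊆ Deep L p → ∀ i,
      ∃ ε ∈ W, Pos p c ε {x | x ∈ W ∧ x < ε ∧ c x ε = i})
    {K M : Type} [LinearOrder K] [WellFoundedLT K] [LinearOrder M] [WellFoundedLT M]
    (hK1 : #K ≤ q) (hK2 : ∀ k : K, #(Iio k) ≤ p) (hK3 : ∀ A : Set K, #A ≤ p → ∃ b, ∀ a ∈ A, a < b)
    (hM : #M ≤ p) (H0 : ¬ Pair c 0 K M) (δ : L) :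
    ∃ y : L, ∀ F : Set L, #F ≤ p → (∀ f ∈ F, f < y ∧ c f y = 1) →
      ∃ b : M → L, Hom c 0 b ∧ ∀ k, b k ∈ Deep L p ∧ δ < b k ∧ b k < y ∧ c (b k) y = 1 ∧
        ∀ f ∈ F, f < b k ∧ c f (b k) = 1 := by
  classical
  by_contra hcon
  push Not at hcon
  choose F hF1 hF2 hF3 using hcon
  obtain ⟨T, hTW, hT, hT2⟩ := pressing C c (hS.above δ) (fun x hx => hx.1) F
    (fun y _ => ⟨hF1 y, fun f hf => (hF2 y f hf).1⟩)
  -- no point of `T` is joined in colour `1` to a sequence in `T` homogeneous for colour `0`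
  have hno : ∀ y ∈ T, ∀ b : M → L, Hom c 0 b → ¬ ∀ k, b k ∈ T ∧ b k < y ∧ c (b k) y = 1 := by
    intro y hy b hb hbk
    obtain ⟨k, hk⟩ := hF3 y b hb
    obtain ⟨f, hf, h3⟩ := hk (hTW (hbk k).1).1 (hTW (hbk k).1).2 (hbk k).2.1 (hbk k).2.2
    have h4 := hT2 y hy (b k) (hbk k).1
    have hf' : f ∈ F (b k) := by
      rw [← h4.1]
      exact hf
    exact h3 (hF2 (b k) f hf').1 (hF2 (b k) f hf').2
  have hTS : T ⊆ Deep L p := fun x hx => (hTW hx).1
  obtain ⟨ε, hε, hpos⟩ := h1 T hT hTS 0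
  obtain ⟨a, ha1, ha2⟩ := hpos.seq (K := K) hK2
  obtain ⟨z, hz⟩ := C.bdd (range a) (mk_range_le.trans hK1)
  have hbound : ∀ y ∈ {y ∈ T | z < y}, ∃ k0 : K, ∀ k, k0 ≤ k → c (a k) y = 0 := by
    rintro y ⟨hy, hzy⟩
    by_contra h2
    push Not at h2
    obtain ⟨m, hm1, hm2⟩ := build (K := M) (κ := p) (fun k => (mk_set_le _).trans hM)
      {k : K | c (a k) y = 1} (fun A x => ∀ j ∈ A, j < x) (by
        intro A _ hA
        obtain ⟨b, hb⟩ := hK3 A hA
        obtain ⟨k, hk1, hk2⟩ := h2 b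
        refine ⟨k, ?_, fun j hj => (hb j hj).trans_le hk1⟩
        show c (a k) y = 1
        revert hk2
        generalize c (a k) y = j
        revert j
        decide)
    refine hno y hy (fun j => a (m j)) (fun i j hij => ha1 _ _ (hm2 j _ ⟨i, hij, rfl⟩)) ?_
    intro j
    exact ⟨(ha2 (m j)).1, (hz _ ⟨m j, rfl⟩).trans hzy, hm1 j⟩
  have hbound' : ∀ y, ∃ k0 : K, y ∈ {y ∈ T | z < y} → ∀ k, k0 ≤ k → c (a k) y = 0 := by
    intro y
    by_cases hy : y ∈ {y ∈ T | z < y}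
    · obtain ⟨k0, hk0⟩ := hbound y hy
      exact ⟨k0, fun _ => hk0⟩
    · obtain ⟨k0, -⟩ := hK3 ∅ (by simp)
      exact ⟨k0, fun h => (hy h).elim⟩
  choose g hg using hbound'
  obtain ⟨k0, hk0⟩ := Stat.fibre C (hT.above z) g univ ((mk_set_le _).trans hK1)
    (fun _ _ => mem_univ _)
  obtain ⟨ε', hε', hpos'⟩ := h1 _ hk0 (fun x hx => hTS hx.1.1) 0
  obtain ⟨b, hb1, hb2⟩ := hpos'.seq (K := M) fun k => (mk_set_le _).trans hM
  obtain ⟨s, hs1, hs2⟩ := build (K := K) (κ := p) hK2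
    {k : K | k0 ≤ k} (fun A x => ∀ j ∈ A, j < x) (by
      intro A _ hA
      obtain ⟨k, hk⟩ := hK3 (A ∪ {k0}) (by
        refine card_union_le C.hp _ _ hA ?_
        rw [mk_singleton]
        exact one_le_aleph0.trans C.hp)
      exact ⟨k, (hk k0 (Or.inr rfl)).le, fun j hj => hk j (Or.inl hj)⟩)
  refine H0 ⟨fun j => a (s j), b, fun i j hij => ha1 _ _ (hs2 j _ ⟨i, hij, rfl⟩), hb1, ?_⟩
  intro j k
  have h3 := (hb2 k).1
  refine ⟨(hz _ ⟨s j, rfl⟩).trans h3.1.2, hg (b k) h3.1 (s j) ?_⟩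
  rw [h3.2]
  exact hs1 j

theorem core' [WellFoundedLT L] (C : Ctx L p q) (c : L → L → Fin 2)
    {K M N : Type} [LinearOrder K] [WellFoundedLT K] [LinearOrder M] [WellFoundedLT M] [Nonempty M]
    [LinearOrder N] [WellFoundedLT N]
    (hK1 : #K ≤ q) (hK2 : ∀ k : K, #(Iio k) ≤ p) (hK3 : ∀ A : Set K, #A ≤ p → ∃ b, ∀ a ∈ A, a < b)
    (hM : #M ≤ p) (hN : #N ≤ p) (hpath : #(N → M) ≤ p) (hpq : p ≤ q) :
    Pair c 0 K M ∨ Pair c 1 K N := by
  classical
  by_contra hcon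
  push Not at hcon
  obtain ⟨H0, H1⟩ := hcon
  have hno : ∀ i, ∀ W : Set L, Stat W → ¬ ∀ x ∈ W, ∀ y ∈ W, x < y → c x y = i := by
    intro i W hW h
    have hi : i = 0 ∨ i = 1 := (by decide : ∀ i : Fin 2, i = 0 ∨ i = 1) i
    rcases hi with rfl | rfl
    · exact H0 (hW.pair C h hK1 (hM.trans hpq))
    · exact H1 (hW.pair C h hK1 (hN.trans hpq))
  have hS : Stat (Deep L p) := stat_deep C hK1 hK3
  have h1 : ∀ W : Set L, Stat W → W ⊆ Deep L p → ∀ i,
      ∃ ε ∈ W, Pos p c ε {x | x ∈ W ∧ x < ε ∧ c x ε = i} :=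
    fun W hW hWS i => step1 C hno hW hWS i
  obtain ⟨δ, hδ⟩ := step3 C hS h1 hK2 hM H0
  obtain ⟨y, hy⟩ := star C hS h1 hK1 hK2 hK3 hM H0 δ
  have hB : ∀ F : Set L, ∃ b : M → L, #F ≤ p → (∀ f ∈ F, f < y ∧ c f y = 1) →
      Hom c 0 b ∧ ∀ k, b k ∈ Deep L p ∧ δ < b k ∧ b k < y ∧ c (b k) y = 1 ∧
        ∀ f ∈ F, f < b k ∧ c f (b k) = 1 := by
    intro F
    by_cases hF : #F ≤ p ∧ ∀ f ∈ F, f < y ∧ c f y = 1
    · obtain ⟨b, hb⟩ := hy F hF.1 hF.2
      exact ⟨b, fun _ _ => hb⟩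
    · exact ⟨fun _ => y, fun h2 h3 => (hF ⟨h2, h3⟩).elim⟩
  choose B hB using hB
  let Y : (N → M) → N → L := fun φ => WellFounded.fix (wellFounded_lt (α := N))
    (fun n rec => B {z | ∃ j, ∃ hj : j < n, z = rec j hj} (φ n))
  have himg : ∀ (f : N → L) (n : N), {z | ∃ j, ∃ _ : j < n, z = f j} = f '' Iio n := by
    intro f n
    ext z
    constructor
    · rintro ⟨j, hj, rfl⟩
      exact ⟨j, hj, rfl⟩
    · rintro ⟨j, hj, rfl⟩
      exact ⟨j, hj, rfl⟩
  have hY : ∀ φ n, Y φ n = B (Y φ '' Iio n) (φ n) := by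
    intro φ n
    have h2 := WellFounded.fix_eq (wellFounded_lt (α := N))
      (fun n (rec : ∀ j, j < n → L) => B {z | ∃ j, ∃ hj : j < n, z = rec j hj} (φ n)) n
    refine h2.trans ?_
    rw [← himg]
  have hcardI : ∀ (f : N → L) (n : N), #(f '' Iio n) ≤ p := fun f n =>
    mk_image_le.trans ((mk_set_le _).trans hN)
  have hval : ∀ φ n, Y φ n < y ∧ c (Y φ n) y = 1 := by
    intro φ n
    induction n using WellFoundedLT.induction with
    | _ n ih =>
      rw [hY φ n]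
      have h2 := (hB (Y φ '' Iio n) (hcardI _ n) (by
        rintro _ ⟨j, hj, rfl⟩
        exact ih j hj)).2 (φ n)
      exact ⟨h2.2.2.1, h2.2.2.2.1⟩
  have hprop : ∀ φ n, Hom c 0 (B (Y φ '' Iio n)) ∧ ∀ k, B (Y φ '' Iio n) k ∈ Deep L p ∧
      δ < B (Y φ '' Iio n) k ∧ B (Y φ '' Iio n) k < y ∧ c (B (Y φ '' Iio n) k) y = 1 ∧
        ∀ f ∈ Y φ '' Iio n, f < B (Y φ '' Iio n) k ∧ c f (B (Y φ '' Iio n) k) = 1 := by
    intro φ n
    refine hB _ (hcardI _ n) ?_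
    rintro _ ⟨j, hj, rfl⟩
    exact hval φ j
  have hhom : ∀ φ, Hom c 1 (Y φ) := by
    intro φ m n hmn
    rw [hY φ n]
    exact ((hprop φ n).2 (φ n)).2.2.2.2 _ ⟨m, hmn, rfl⟩
  have hδY : ∀ φ n, δ < Y φ n := by
    intro φ n
    rw [hY φ n]
    exact ((hprop φ n).2 (φ n)).2.1
  let P0 : N × (N → M) → Set L := fun s => {β | β < δ ∧ ∀ k, c β (B (Y s.2 '' Iio s.1) k) = 0}
  have hP0 : ∀ s, J p c 0 (P0 s) := by
    intro s ε hε h5
    obtain ⟨a, ha1, ha2⟩ := h5.seq (K := K) hK2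
    exact H0 ⟨a, B (Y s.2 '' Iio s.1), ha1, (hprop s.2 s.1).1, fun j k =>
      ⟨(ha2 j).1.1.trans ((hprop s.2 s.1).2 k).2.1, (ha2 j).1.2 k⟩⟩
  let P1 : (N → M) → Set L := fun φ => {β | β < δ ∧ ∀ n, c β (Y φ n) = 1}
  have hP1 : ∀ φ, J p c 1 (P1 φ) := by
    intro φ ε hε h5
    obtain ⟨a, ha1, ha2⟩ := h5.seq (K := K) hK2
    exact H1 ⟨a, Y φ, ha1, hhom φ, fun j n =>
      ⟨(ha2 j).1.1.trans (hδY φ n), (ha2 j).1.2 n⟩⟩
  have hcard : #(N × (N → M)) ≤ p := by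
    rw [mk_prod, Cardinal.lift_id, Cardinal.lift_id]
    exact (mul_le_mul' hN hpath).trans (mul_eq_self C.hp).le
  refine hδ _ _ (J.iUnion C.hp hcard hP0) (J.iUnion C.hp hpath hP1) ?_
  intro x hx hxδ
  by_cases h5 : ∃ s, x ∈ P0 s
  · left
    exact mem_iUnion.2 h5
  right
  push Not at h5
  have h6 : ∀ φ n, ∃ k, c x (B (Y φ '' Iio n) k) = 1 := by
    intro φ n
    by_contra h7
    push Not at h7
    refine h5 (n, φ) ⟨hxδ, fun k => ?_⟩
    have h8 := h7 k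
    revert h8
    generalize c x (B (Y φ '' Iio n) k) = j
    revert j
    decide
  have hG : ∀ F : Set L, ∃ k : M, (∃ k', c x (B F k') = 1) → c x (B F k) = 1 := by
    intro F
    by_cases hF : ∃ k', c x (B F k') = 1
    · obtain ⟨k', hk'⟩ := hF
      exact ⟨k', fun _ => hk'⟩
    · exact ⟨Classical.arbitrary M, fun h => (hF h).elim⟩
  choose G hG using hG
  let Z : N → L := WellFounded.fix (wellFounded_lt (α := N))
    (fun n rec => B {z | ∃ j, ∃ hj : j < n, z = rec j hj}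
      (G {z | ∃ j, ∃ hj : j < n, z = rec j hj}))
  have hZ : ∀ n, Z n = B (Z '' Iio n) (G (Z '' Iio n)) := by
    intro n
    have h2 := WellFounded.fix_eq (wellFounded_lt (α := N))
      (fun n (rec : ∀ j, j < n → L) => B {z | ∃ j, ∃ hj : j < n, z = rec j hj}
        (G {z | ∃ j, ∃ hj : j < n, z = rec j hj})) n
    refine h2.trans ?_
    rw [← himg]
  let φ : N → M := fun n => G (Z '' Iio n)
  have hYZ : ∀ n, Y φ n = Z n := by
    intro n
    induction n using WellFoundedLT.induction with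
    | _ n ih =>
      have h7 : Y φ '' Iio n = Z '' Iio n := image_congr fun j hj => ih j hj
      rw [hY φ n, hZ n, h7]
  refine mem_iUnion.2 ⟨φ, hxδ, fun n => ?_⟩
  have h7 : Y φ '' Iio n = Z '' Iio n := image_congr fun j _ => hYZ j
  have h8 := h6 φ n
  rw [h7] at h8
  rw [hYZ n, hZ n]
  exact hG _ h8

/-- `q⁺ → (p⁺ + ξ, p⁺ + η)²`. -/
theorem arrow (p q : Cardinal.{0}) (hp : ℵ₀ ≤ p) (hpq : q ^ p ≤ q) (hpq' : Order.succ p ≤ q)
    (ξ η : Ordinal.{0}) (hξ : ξ.card ≤ p) (hη : p ^ η.card ≤ p) :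
    Arrow (Order.succ q).ord ((Order.succ p).ord + ξ) ((Order.succ p).ord + η) := by
  classical
  intro c
  have hq : ℵ₀ ≤ q := hp.trans ((Order.le_succ p).trans hpq')
  have C : Ctx (Order.succ q).ord.ToType p q :=
    { hp := hp
      hq := hq
      hpq := hpq
      seg := succ_seg _
      bdd := succ_bdd hq }
  have hη' : η.card ≤ p := by
    refine le_trans ?_ hη
    exact (cantor _).le.trans (power_le_power_right ((nat_lt_aleph0 2).le.trans hp))
  have hMc : #(WithTop ξ.ToType) ≤ p := by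
    have h1 : #(WithTop ξ.ToType) = #(Option ξ.ToType) := rfl
    rw [h1, mk_option, mk_toType]
    exact (add_le_add hξ (one_le_aleph0.trans hp)).trans (add_eq_self hp).le
  have key := core' C c (K := (Order.succ p).ord.ToType) (M := WithTop ξ.ToType)
    (N := η.ToType) (by rw [mk_ord_toType]; exact hpq') (succ_seg _) (succ_bdd hp) hMc
    (by rw [mk_toType]; exact hη')
    (by
      rw [← power_def, mk_toType]
      exact (power_le_power_right hMc).trans hη)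
    ((Order.le_succ p).trans hpq')
  rcases key with ⟨a, b, ha, hb, hab⟩ | h
  · left
    have h : Pair c 0 (Order.succ p).ord.ToType ξ.ToType :=
      ⟨a, fun x => b (x : WithTop ξ.ToType), ha,
        fun j k hjk => hb _ _ (WithTop.coe_lt_coe.2 hjk), fun j k => hab j _⟩
    obtain ⟨H, h1, h2⟩ := h.set
    refine ⟨H, ?_, h2⟩
    rw [h1, type_toType, type_toType]
  · right
    obtain ⟨H, h1, h2⟩ := h.set
    refine ⟨H, ?_, h2⟩
    rw [h1, type_toType, type_toType]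

end Pool.Agent.Y582.OP
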